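import Pool.Agent.Helper79_WRA.Basic
import Pool.Agent.Helper79_WRA.Stmt
import Pool.Agent.Helper51_AWC.PiChar

/-!
WRA, module COUNT: the number of characters of the stabiliser of `v` satisfying the block
condition.
-/

open scoped BigOperators

noncomputable section

namespace Pool.Agent.Helper79_WRA.H13

open Pool.Agent.Helper51_AWC Pool.Agent.Helper79_WRA

variable {G Δ K : Type} [Group G] [Group K] [MulAction K Δ]

/-- the projection of the stabiliser of `v` -/
def pr (K : Type) [Group K] [MulAction K Δ] (v : Finset (Δ → Subgroup G)) : boxStab K v →* K :=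
  (Wreath.proj : Wreath G Δ K →* K).comp (boxStab K v).subtype

theorem pr_apply (v : Finset (Δ → Subgroup G)) (t : boxStab K v) :
    pr K v t = (t : Wreath G Δ K).s := rfl

theorem mem_ker_pr {v : Finset (Δ → Subgroup G)} {t : boxStab K v} :
    t ∈ (pr K v).ker ↔ (t : Wreath G Δ K).s = 1 := Iff.rfl

theorem base_mem_boxStab {v : Finset (Δ → Subgroup G)} {y : Δ → G} :
    (Wreath.base y : Wreath G Δ K) ∈ boxStab K v ↔ ∀ j, y j ∈ colStab v j := by
  rw [mem_boxStab]
  constructor
  · intro h j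
    rw [mem_colStab]
    intro R hR
    have := h R hR j
    rwa [Wreath.base_s, inv_one, one_smul] at this
  · intro h R hR j
    rw [Wreath.base_s, inv_one, one_smul]
    exact mem_colStab.1 (h j) R hR

theorem eq_base_of_s {t : Wreath G Δ K} (h : t.s = 1) : t = Wreath.base t.f :=
  Wreath.ext rfl h

/-- the kernel is the product of the stabilisers of the columns -/
def kerEquiv (K : Type) [Group K] [MulAction K Δ] (v : Finset (Δ → Subgroup G)) :
    (pr K v).ker ≃* (∀ j, colStab v j) where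
  toFun t j := ⟨(t.1.1).f j, by
    have h1 : (t.1.1) ∈ boxStab K v := t.1.2
    have h2 : (t.1.1).s = 1 := t.2
    rw [eq_base_of_s h2, base_mem_boxStab] at h1
    exact h1 j⟩
  invFun y := ⟨⟨Wreath.base (fun j => (y j : G)), base_mem_boxStab.2 fun j => (y j).2⟩, rfl⟩
  left_inv t := by
    apply Subtype.ext
    apply Subtype.ext
    exact (eq_base_of_s t.2).symm
  right_inv y := rfl
  map_mul' t u := by
    funext j
    apply Subtype.ext
    show ((t.1.1) * (u.1.1)).f j = (t.1.1).f j * (u.1.1).f j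
    have h2 : (t.1.1).s = 1 := t.2
    rw [Wreath.mul_f, h2, inv_one, one_smul]

open Classical in
/-- the character of the kernel attached to `α` -/
def nu [Fintype Δ] (v : Finset (Δ → Subgroup G)) (α : Δ → G → ℂ) (t : boxStab K v) : ℂ :=
  if (t : Wreath G Δ K).s = 1 then ∏ j, α j ((t : Wreath G Δ K).f j) else 0

section fin

variable [Finite G] [Fintype Δ]

omit [Finite G] in
theorem nu_base (v : Finset (Δ → Subgroup G)) (α : Δ → G → ℂ) (y : ∀ j, colStab v j) :
    nu (K := K) v α ((kerEquiv K v).symm y : (pr K v).ker) =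
      piChar (fun j (z : colStab v j) => α j z) y := by
  unfold nu
  rw [if_pos]
  · rfl
  · rfl

theorem nu_mem (v : Finset (Δ → Subgroup G)) (α : Δ → G → ℂ) (hα : IsChars v α) :
    nu v α ∈ IrrS (pr K v).ker := by
  classical
  have : ∀ j, Fintype (colStab v j) := fun j => Fintype.ofFinite _
  refine ⟨fun t ht => ?_, ?_⟩
  · unfold nu
    rw [if_neg]
    exact ht
  · have h1 : piChar (fun j (z : colStab v j) => α j z) ∈ Irr (∀ j, colStab v j) :=
      piChar_mem (fun j => (hα j).2)
    have h2 := irr_comp_equiv (kerEquiv K v) h1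
    have h3 : (fun h : (pr K v).ker => nu (K := K) v α h) =
        fun g => piChar (fun j (z : colStab v j) => α j z) (kerEquiv K v g) := by
      funext t
      rw [← nu_base (K := K), MulEquiv.symm_apply_apply]
    rw [h3]
    exact h2

theorem nu_inj {v : Finset (Δ → Subgroup G)} {α β : Δ → G → ℂ} (hα : IsChars v α)
    (hβ : IsChars v β) (h : nu (K := K) v α = nu v β) : α = β := by
  classical
  have : ∀ j, Fintype (colStab v j) := fun j => Fintype.ofFinite _
  have h1 : piChar (fun j (z : colStab v j) => α j z) =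
      piChar (fun j (z : colStab v j) => β j z) := by
    funext y
    rw [← nu_base (K := K), ← nu_base (K := K), h]
  have h2 := piChar_inj (fun j => (hα j).2) (fun j => (hβ j).2) h1
  funext j
  refine IrrS_ext (hα j) (hβ j) fun x => ?_
  exact congrFun (congrFun h2 j) x

theorem nu_surj (v : Finset (Δ → Subgroup G)) (η : boxStab K v → ℂ)
    (hη : η ∈ IrrS (pr K v).ker) : ∃ α, IsChars v α ∧ nu v α = η := by
  classical
  have : ∀ j, Fintype (colStab v j) := fun j => Fintype.ofFinite _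
  have h1 := irr_comp_equiv (kerEquiv K v).symm hη.2
  obtain ⟨α, hα, hα2⟩ := exists_piChar h1
  choose β hβ hβ2 using fun j => exists_IrrS (colStab v j) (hα j)
  refine ⟨β, hβ, ?_⟩
  refine IrrS_ext (nu_mem v β hβ) hη fun t => ?_
  have h2 := congrFun hα2 (kerEquiv K v t)
  simp only [MulEquiv.symm_apply_apply] at h2
  rw [h2]
  have h3 := nu_base (K := K) v β (kerEquiv K v t)
  rw [MulEquiv.symm_apply_apply] at h3
  rw [h3]
  unfold piChar
  exact Finset.prod_congr rfl fun j _ => hβ2 j _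

end fin

/-! ### the stabiliser -/

theorem IrrS_conj {G : Type} [Group G] {H H' : Subgroup G} (g : G)
    (h : ∀ y, y ∈ H ↔ g * y * g⁻¹ ∈ H') {a : G → ℂ} (ha : a ∈ IrrS H') :
    (fun y => a (g * y * g⁻¹)) ∈ IrrS H := by
  refine ⟨fun y hy => ha.1 _ fun h' => hy ((h y).2 h'), ?_⟩
  let e : H ≃* H' :=
    { toFun := fun y => ⟨g * y * g⁻¹, (h y).1 y.2⟩
      invFun := fun y => ⟨g⁻¹ * y * g, by
        rw [h]
        have : g * (g⁻¹ * (y : G) * g) * g⁻¹ = y := by group
        rw [this]
        exact y.2⟩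
      left_inv := fun y => by
        apply Subtype.ext
        show g⁻¹ * (g * (y : G) * g⁻¹) * g = y
        group
      right_inv := fun y => by
        apply Subtype.ext
        show g * (g⁻¹ * (y : G) * g) * g⁻¹ = y
        group
      map_mul' := fun y z => by
        apply Subtype.ext
        show g * ((y : G) * z) * g⁻¹ = (g * (y : G) * g⁻¹) * (g * (z : G) * g⁻¹)
        group }
  exact irr_comp_equiv e ha.2

/-- the conjugate of `α` -/
def tw (α : Δ → G → ℂ) (t : Wreath G Δ K) (j : Δ) (y : G) : ℂ :=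
  α (t.s • j) (t.f (t.s • j) * y * (t.f (t.s • j))⁻¹)

theorem tw_isChars {v : Finset (Δ → Subgroup G)} {α : Δ → G → ℂ} (hα : IsChars v α)
    {t : Wreath G Δ K} (ht : t ∈ boxStab K v) : IsChars v (tw α t) := by
  intro j
  refine IrrS_conj (t.f (t.s • j)) (fun y => ?_) (hα (t.s • j))
  rw [mem_colStab, mem_colStab]
  have h1 : ∀ R ∈ v, conjS (t.f (t.s • j)) (R j) = R (t.s • j) := by
    intro R hR
    have := ht R hR (t.s • j)
    rwa [inv_smul_smul] at this
  constructor
  · intro h R hR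
    rw [← h1 R hR, conjS_conjS]
    have : t.f (t.s • j) * y * (t.f (t.s • j))⁻¹ * t.f (t.s • j) = t.f (t.s • j) * y := by group
    rw [this, ← conjS_conjS, h R hR]
  · intro h R hR
    have h2 := h R hR
    rw [← h1 R hR, conjS_conjS] at h2
    have : t.f (t.s • j) * y * (t.f (t.s • j))⁻¹ * t.f (t.s • j) = t.f (t.s • j) * y := by group
    rw [this, ← conjS_conjS] at h2
    exact conjS_injective _ h2

theorem nu_tw [Fintype Δ] (v : Finset (Δ → Subgroup G)) (α : Δ → G → ℂ) (t y : boxStab K v) :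
    nu v (tw α (t : Wreath G Δ K)) y = nu v α (t * y * t⁻¹) := by
  unfold nu
  have hs : ((t * y * t⁻¹ : boxStab K v) : Wreath G Δ K).s =
      (t : Wreath G Δ K).s * (y : Wreath G Δ K).s * ((t : Wreath G Δ K).s)⁻¹ :=
    Wreath.conj_s (y : Wreath G Δ K) (t : Wreath G Δ K)
  by_cases h : (y : Wreath G Δ K).s = 1
  · rw [if_pos h, if_pos (by rw [hs, h, mul_one, mul_inv_cancel])]
    have h1 : ∀ j, ((t * y * t⁻¹ : boxStab K v) : Wreath G Δ K).f j =
        (t : Wreath G Δ K).f j * (y : Wreath G Δ K).f ((t : Wreath G Δ K).s⁻¹ • j) *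
          ((t : Wreath G Δ K).f j)⁻¹ := by
      intro j
      have h2 := Wreath.conj_f (y : Wreath G Δ K) (t : Wreath G Δ K) j
      rw [h, inv_one, mul_one, mul_inv_cancel, one_smul] at h2
      exact h2
    simp only [h1]
    unfold tw
    rw [← Equiv.prod_comp (MulAction.toPerm (t : Wreath G Δ K).s)
      (fun j => α j ((t : Wreath G Δ K).f j *
        (y : Wreath G Δ K).f ((t : Wreath G Δ K).s⁻¹ • j) * ((t : Wreath G Δ K).f j)⁻¹))]
    refine Finset.prod_congr rfl fun j _ => ?_
    rw [MulAction.toPerm_apply, inv_smul_smul]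
  · rw [if_neg h, if_neg]
    rw [hs]
    intro h2
    apply h
    have : (y : Wreath G Δ K).s = ((t : Wreath G Δ K).s)⁻¹ *
        ((t : Wreath G Δ K).s * (y : Wreath G Δ K).s * ((t : Wreath G Δ K).s)⁻¹) *
          (t : Wreath G Δ K).s := by group
    rw [this, h2]
    group

theorem mem_T [Finite G] [Fintype Δ] {v : Finset (Δ → Subgroup G)}
    {α : Δ → G → ℂ} (hα : IsChars v α) (t : boxStab K v) :
    t ∈ (stX K v α).subgroupOf (boxStab K v) ↔ ∀ y, nu v α (t * y * t⁻¹) = nu v α y := by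
  rw [Subgroup.mem_subgroupOf, mem_stX]
  constructor
  · rintro ⟨-, h⟩ y
    rw [← nu_tw]
    have : tw α (t : Wreath G Δ K) = α := by
      funext j z
      have := h ((t : Wreath G Δ K).s • j) z
      rw [inv_smul_smul] at this
      exact this
    rw [this]
  · intro h
    have h1 : nu (K := K) v (tw α (t : Wreath G Δ K)) = nu v α := by
      funext y
      rw [nu_tw, h]
    have h2 := nu_inj (tw_isChars hα t.2) hα h1
    refine ⟨t.2, fun j y => ?_⟩
    have h3 := congrFun (congrFun h2 ((t : Wreath G Δ K).s⁻¹ • j)) y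
    unfold tw at h3
    rw [smul_inv_smul] at h3
    exact h3

theorem card_stX [Finite G] [Fintype Δ] {v : Finset (Δ → Subgroup G)}
    {α : Δ → G → ℂ} (hα : IsChars v α) :
    Nat.card (stX K v α) = (∏ j, Nat.card (colStab v j)) * Nat.card (topSt K v α) := by
  let f : stX K v α →* K := (Wreath.proj : Wreath G Δ K →* K).comp (stX K v α).subtype
  have h1 : f.range = topSt K v α := by
    show (Wreath.proj.comp (stX K v α).subtype).range = _
    rw [MonoidHom.range_comp, Subgroup.range_subtype]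
    rfl
  have h2 := Subgroup.card_mul_index f.ker
  rw [Subgroup.index_ker, h1] at h2
  rw [← h2]
  congr 1
  rw [← Nat.card_pi]
  refine Nat.card_congr ?_
  refine ⟨fun t j => ⟨(t.1.1).f j, ?_⟩, fun y => ⟨⟨Wreath.base (fun j => (y j : G)), ?_⟩, rfl⟩,
    fun t => ?_, fun y => rfl⟩
  · have h3 : (t.1.1) ∈ boxStab K v := t.1.2.1
    have h4 : (t.1.1).s = 1 := t.2
    rw [eq_base_of_s h4, base_mem_boxStab] at h3
    exact h3 j
  · refine ⟨base_mem_boxStab.2 fun j => (y j).2, fun j z => ?_⟩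
    rw [Wreath.base_s, inv_one, one_smul, Wreath.base_f]
    by_cases hz : z ∈ colStab v j
    · exact irr_conj (hα j).2 (⟨z, hz⟩ : colStab v j) (y j)
    · rw [(hα j).1 z hz, (hα j).1]
      intro h3
      apply hz
      have := (colStab v j).mul_mem ((colStab v j).mul_mem ((colStab v j).inv_mem (y j).2) h3)
        (y j).2
      have e : (y j : G)⁻¹ * ((y j : G) * z * (y j : G)⁻¹) * (y j : G) = z := by group
      rwa [e] at this
  · apply Subtype.ext
    apply Subtype.ext
    exact (eq_base_of_s t.2).symm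

/-! ### values -/

theorem IrrS_restrict {Γ : Type} [Group Γ] {H Λ : Subgroup Γ} (hle : H ≤ Λ) {a : Γ → ℂ}
    (ha : a ∈ IrrS H) : (fun t : Λ => a t) ∈ IrrS (H.subgroupOf Λ) := by
  refine ⟨fun t ht => ha.1 _ fun h => ht (Subgroup.mem_subgroupOf.2 h), ?_⟩
  exact irr_comp_equiv (Subgroup.subgroupOfEquivOfLe hle) ha.2

theorem val_restrict {Γ : Type} [Group Γ] [Finite Γ] {Λ : Subgroup Γ} (Φ η : Γ → ℂ)
    (hη : ∀ t, t ∉ Λ → η t = 0) :
    val (fun t : Λ => Φ t) (fun t : Λ => η t) = val Φ η := by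
  classical
  unfold val
  congr 1
  have h1 : ∑ᶠ t : Λ, (fun t : Λ => Φ t) t * (fun t : Λ => η t) t =
      ∑ᶠ (t : Γ) (_ : t ∈ Λ), Φ t * η t :=
    finsum_subtype_eq_finsum_cond (f := fun t => Φ t * η t) (p := fun t => t ∈ Λ)
  rw [h1]
  refine finsum_congr fun t => ?_
  rw [finsum_eq_if]
  split_ifs with h
  · rfl
  · rw [hη t h, mul_zero]

theorem val_ind {Λ : Type} [Group Λ] [Finite Λ] (T : Subgroup Λ) (Φ η : Λ → ℂ)
    (hΦ : ∀ x y, Φ (y * x * y⁻¹) = Φ x) : val Φ (ind T η) = val Φ η := by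
  classical
  have := Fintype.ofFinite Λ
  rw [val_eq, val_eq]
  unfold ind
  have h1 : ∀ g, (∑ᶠ x : Λ, η (x * g * x⁻¹)) = ∑ x : Λ, η (x * g * x⁻¹) := fun g =>
    finsum_eq_sum_of_fintype _
  simp only [h1]
  have h2 : ∑ g, Φ g * ((∑ x : Λ, η (x * g * x⁻¹)) / (Nat.card T : ℂ)) =
      ((Fintype.card Λ : ℂ) / (Nat.card T : ℂ)) * ∑ g, Φ g * η g := by
    have h3 : ∀ x : Λ, ∑ g, Φ g * η (x * g * x⁻¹) = ∑ g, Φ g * η g := by
      intro x
      rw [← Equiv.sum_comp (MulAut.conj x).toEquiv (fun g => Φ g * η g)]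
      refine Finset.sum_congr rfl fun g _ => ?_
      show _ = Φ (x * g * x⁻¹) * η (x * g * x⁻¹)
      rw [hΦ]
    have h4 : ∑ g, Φ g * ((∑ x : Λ, η (x * g * x⁻¹)) / (Nat.card T : ℂ)) =
        (∑ x : Λ, ∑ g, Φ g * η (x * g * x⁻¹)) / (Nat.card T : ℂ) := by
      rw [Finset.sum_comm, Finset.sum_div]
      refine Finset.sum_congr rfl fun g _ => ?_
      rw [← Finset.mul_sum, mul_div_assoc]
    rw [h4]
    simp only [h3, Finset.sum_const, Finset.card_univ, nsmul_eq_mul]
    ring
  have h5 : (∑ x : Λ, η (x * 1 * x⁻¹)) / (Nat.card T : ℂ) =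
      ((Fintype.card Λ : ℂ) / (Nat.card T : ℂ)) * η 1 := by
    simp only [mul_one, mul_inv_cancel, Finset.sum_const, Finset.card_univ, nsmul_eq_mul]
    ring
  rw [h2, h5, mul_div_mul_left]
  refine div_ne_zero ?_ ?_
  · exact_mod_cast Fintype.card_ne_zero
  · exact_mod_cast Nat.card_pos.ne'

theorem count (hext : ExtStmt) (hcl : CliffStmt) : CountStmt := by
  classical
  intro G Δ K I _ _ _ _ _ _ M Φ ws v hΦ
  have hE : ∀ α, IsChars v α → IsExt K v α (ext K v α) := by
    intro α hα
    have h := hext G Δ K v α hα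
    unfold ext
    rw [dif_pos h]
    exact h.choose_spec
  have hmem : ∀ a : {α // α ∈ charsOf v}, IsChars v a.1 := fun a => mem_charsOf.1 a.2
  have hle : ∀ α, stX K v α ≤ boxStab K v := fun α => stX_le_boxStab
  have key := hcl (boxStab K v) K {α // α ∈ charsOf v} (pr K v) (fun a => nu v a.1)
    (fun a t => ext K v a.1 t) (fun a => (stX K v a.1).subgroupOf (boxStab K v))
    (fun a => nu_mem v a.1 (hmem a))
    (fun a b h => Subtype.ext (nu_inj (hmem a) (hmem b) h))
    (fun η hη => by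
      obtain ⟨α, hα, h⟩ := nu_surj v η hη
      exact ⟨⟨α, mem_charsOf.2 hα⟩, h⟩)
    (fun a t => mem_T (hmem a) t)
    (fun a => IrrS_restrict (hle a.1) (hE a.1 (hmem a)).mem)
    (fun a y hy => by
      have h1 : (y : Wreath G Δ K).s = 1 := hy
      show ext K v a.1 (y : Wreath G Δ K) = nu v a.1 y
      unfold nu
      rw [if_pos h1, eq_base_of_s h1, (hE a.1 (hmem a)).base]
      rfl)
    {θ | Good M (fun z (t : boxStab K v) => Φ z t) ws θ}
  have h1 : (Nat.card (boxStab K v) : ℤ) *
      (({ϑ | ϑ ∈ Irr (boxStab K v) ∧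
        Good M (fun z (t : boxStab K v) => Φ z t) ws ϑ}.ncard : ℕ) : ℤ) =
      ((Nat.card (boxStab K v) * {θ | θ ∈ Irr (boxStab K v) ∧
        θ ∈ {θ | Good M (fun z (t : boxStab K v) => Φ z t) ws θ}}.ncard : ℕ) : ℤ) := by
    push_cast
    rfl
  rw [h1, key, ← Finset.sum_coe_sort (charsOf v)]
  push_cast
  refine Finset.sum_congr rfl fun a _ => ?_
  have hcard : Nat.card ((stX K v a.1).subgroupOf (boxStab K v)) =
      (∏ j, Nat.card (colStab v j)) * Nat.card (topSt K v a.1) := by
    rw [← card_stX (hmem a)]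
    exact Nat.card_congr (Subgroup.subgroupOfEquivOfLe (hle a.1)).toEquiv
  have hmap : ((stX K v a.1).subgroupOf (boxStab K v)).map (pr K v) = topSt K v a.1 := by
    unfold pr topSt
    rw [← Subgroup.map_map, Subgroup.subgroupOf_map_subtype, inf_eq_left.2 (hle a.1)]
  have hset : {lam | lam ∈ IrrS (((stX K v a.1).subgroupOf (boxStab K v)).map (pr K v)) ∧
      ind ((stX K v a.1).subgroupOf (boxStab K v)) (fun t => ext K v a.1 t * lam (pr K v t)) ∈
        {θ | Good M (fun z (t : boxStab K v) => Φ z t) ws θ}} =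
      {lam | lam ∈ IrrS (topSt K v a.1) ∧ Good M Φ ws (eta v a.1 lam)} := by
    ext lam
    rw [Set.mem_ofPred_eq, Set.mem_ofPred_eq, Set.mem_ofPred_eq, hmap]
    have h2 : ∀ z, val (fun t : boxStab K v => Φ z t)
        (ind ((stX K v a.1).subgroupOf (boxStab K v))
          (fun t => ext K v a.1 t * lam (pr K v t))) = val (Φ z) (eta v a.1 lam) := by
      intro z
      rw [val_ind ((stX K v a.1).subgroupOf (boxStab K v)) (fun t : boxStab K v => Φ z t)
        (fun t => ext K v a.1 t * lam (pr K v t)) (fun x y => hΦ z x y)]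
      exact val_restrict (Φ z) (eta v a.1 lam) (fun t ht => by
        unfold eta
        rw [(hE a.1 (hmem a)).mem.1 t fun h => ht (hle a.1 h), zero_mul])
    unfold Good
    simp only [h2]
  rw [hset, hcard]
  push_cast
  rfl

end Pool.Agent.Helper79_WRA.H13
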