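import Pool.Agent.Helper79_WRA.Basic
import Pool.Agent.Helper79_WRA.Stmt
import Pool.Agent.Helper51_AWC.Defect

/-!
WRA, module FORM: the block condition depends only on the local data.
-/

open scoped BigOperators

noncomputable section

namespace Pool.Agent.Helper79_WRA.H13

open Pool.Agent.Helper51_AWC Pool.Agent.Helper79_WRA

/-! ### sums over classes -/

theorem sum_class1 {G : Type} [Group G] [Fintype G] [DecidableEq (ConjClasses G)]
    [Fintype (ConjClasses G)] (F a : G → ℂ) (hF : ∀ x y, F (y * x * y⁻¹) = F x) :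
    ∑ g, F g * a g = ∑ C : ConjClasses G, F (Quotient.out C) *
      ∑ x ∈ Finset.univ.filter (fun x => ConjClasses.mk x = C), a x := by
  rw [← Finset.sum_fiberwise Finset.univ (fun g : G => ConjClasses.mk g)]
  refine Finset.sum_congr rfl fun C _ => ?_
  rw [Finset.mul_sum]
  refine Finset.sum_congr rfl fun g hg => ?_
  have h1 := (Finset.mem_filter.1 hg).2
  have h2 : ConjClasses.mk (Quotient.out C) = C := Quotient.out_eq C
  rw [← h2] at h1
  obtain ⟨c, hc⟩ := isConj_iff.1 (ConjClasses.mk_eq_mk_iff_isConj.1 h1)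
  rw [← hc, hF]

theorem sum_class_pi {ι G : Type} [Fintype ι] [DecidableEq ι] [Group G] [Fintype G]
    [DecidableEq (ConjClasses G)] [Fintype (ConjClasses G)] (F : (ι → G) → ℂ) (a : ι → G → ℂ)
    (hF : ∀ y z : ι → G, (∀ i, IsConj (y i) (z i)) → F y = F z) :
    ∑ y, F y * ∏ i, a i (y i) = ∑ C : ι → ConjClasses G, F (fun i => Quotient.out (C i)) *
      ∏ i, ∑ x ∈ Finset.univ.filter (fun x => ConjClasses.mk x = C i), a i x := by
  rw [← Finset.sum_fiberwise Finset.univ (fun y : ι → G => fun i => ConjClasses.mk (y i))]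
  refine Finset.sum_congr rfl fun C _ => ?_
  rw [Finset.prod_univ_sum, Finset.mul_sum]
  have h1 : (Finset.univ.filter fun y : ι → G => (fun i => ConjClasses.mk (y i)) = C) =
      Fintype.piFinset fun i => Finset.univ.filter (fun x => ConjClasses.mk x = C i) := by
    ext y
    simp only [Finset.mem_filter, Finset.mem_univ, true_and, Fintype.mem_piFinset]
    exact funext_iff
  rw [h1]
  refine Finset.sum_congr rfl fun y hy => ?_
  congr 1
  apply hF
  intro i
  have h2 := (Finset.mem_filter.1 (Fintype.mem_piFinset.1 hy i)).2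
  have h3 : ConjClasses.mk (Quotient.out (C i)) = C i := Quotient.out_eq (C i)
  rw [← h3] at h2
  exact ConjClasses.mk_eq_mk_iff_isConj.1 h2

/-- class sums of `a` are values of `omega` -/
theorem class_omega {G : Type} [Group G] [Fintype G] [DecidableEq (ConjClasses G)]
    (a : G → ℂ) (h1 : a 1 ≠ 0) (C : ConjClasses G) :
    ∑ x ∈ Finset.univ.filter (fun x => ConjClasses.mk x = C), a x =
      omega (MonoidHom.id G) a (Quotient.out C) * a 1 := by
  classical
  rw [omega_eq, div_mul_cancel₀ _ h1, Finset.sum_filter]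
  refine Finset.sum_congr rfl fun x _ => ?_
  have h2 : ConjClasses.mk (Quotient.out C) = C := Quotient.out_eq C
  have : ConjClasses.mk x = C ↔ IsConj (Quotient.out C) ((MonoidHom.id G) x) := by
    conv_lhs => rw [← h2]
    rw [ConjClasses.mk_eq_mk_iff_isConj, isConj_comm]
    rfl
  simp only [this]

/-- a class function with values in `M` acts by elements of `M` -/
theorem cong_class {U : Type} [Group U] [Finite U] {M : Ideal (integralClosure ℤ ℂ)}
    {lam : U → ℂ} (hl : lam ∈ Irr U) (D : U → ℂ) (hD : ∀ x y, D (y * x * y⁻¹) = D x)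
    (hM : ∀ x, Cong M (D x) 0) [Fintype U] : Cong M ((∑ h, lam h * D h) / lam 1) 0 := by
  classical
  have := Fintype.ofFinite (ConjClasses U)
  have h1 : ∑ h, lam h * D h = ∑ h, D h * lam h :=
    Finset.sum_congr rfl fun h _ => mul_comm _ _
  rw [h1, sum_class1 D lam hD, Finset.sum_div]
  have h0 : (0 : ℂ) = ∑ _C : ConjClasses U, (0 : ℂ) := by simp
  rw [h0]
  apply Cong.sum
  intro C _
  rw [class_omega lam (irr_one_ne hl), ← mul_assoc, mul_div_assoc, div_self (irr_one_ne hl),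
    mul_one]
  exact (hM _).mul_zero_right (omega_integral _ hl _)

/-- `|H| / a(1)` is integral -/
theorem card_div_integral {G : Type} [Group G] [Finite G] {H : Subgroup G} {a : G → ℂ}
    (ha : a ∈ IrrS H) : IsIntegral ℤ ((Nat.card H : ℂ) / a 1) := by
  classical
  have := Fintype.ofFinite H
  have := Fintype.ofFinite (ConjClasses H)
  have h := codeg_eq ha.2
  rw [Nat.card_eq_fintype_card]
  have h2 : (Fintype.card H : ℂ) / a 1 = (Fintype.card H : ℂ) / (fun h : H => a h) 1 := rfl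
  rw [h2, h]
  apply IsIntegral.sum
  intro C _
  exact (omega_integral _ ha.2 _).mul (irr_integral ha.2 _)

theorem Cong.prod' {M : Ideal (integralClosure ℤ ℂ)} {ι : Type*} (s : Finset ι) (f g : ι → ℂ)
    (h : ∀ i ∈ s, Cong M (f i) (g i)) (hf : ∀ i ∈ s, AI (f i)) (hg : ∀ i ∈ s, AI (g i)) :
    Cong M (∏ i ∈ s, f i) (∏ i ∈ s, g i) := by
  classical
  induction s using Finset.induction_on with
  | empty => simpa using Cong.refl _
  | insert a s ha ih =>
    rw [Finset.prod_insert ha, Finset.prod_insert ha]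
    refine (h a (Finset.mem_insert_self _ _)).mul
      (ih (fun i hi => h i (Finset.mem_insert_of_mem hi))
        (fun i hi => hf i (Finset.mem_insert_of_mem hi))
        (fun i hi => hg i (Finset.mem_insert_of_mem hi)))
      (hg a (Finset.mem_insert_self _ _)) ?_
    exact IsIntegral.prod _ fun i hi => hf i (Finset.mem_insert_of_mem hi)

/-! ### base points -/

variable {G Δ K : Type} [Group G] [Group K] [MulAction K Δ]

theorem exists_base [Fintype Δ] (h : K) : ∃ B : Finset Δ, IsBase h B := by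
  classical
  let s := MulAction.orbitRel (Subgroup.zpowers h) Δ
  let r : Δ → Δ := fun j => (Quotient.mk s j).out
  have hr : ∀ j, r j ∈ MulAction.orbit (Subgroup.zpowers h) j := fun j =>
    Quotient.exact (s := s) (Quotient.out_eq (Quotient.mk s j))
  refine ⟨Finset.univ.image r, fun j => ⟨r j, ⟨Finset.mem_image_of_mem _ (Finset.mem_univ _),
    hr j⟩, ?_⟩⟩
  rintro b ⟨hb, hbj⟩
  obtain ⟨j', -, rfl⟩ := Finset.mem_image.1 hb
  have h1 : Quotient.mk s (r j') = Quotient.mk s j := Quotient.sound (s := s) hbj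
  have h2 : Quotient.mk s (r j') = Quotient.mk s j' := Quotient.out_eq _
  show (Quotient.mk s j').out = (Quotient.mk s j).out
  rw [← h2, h1]

open Classical in
/-- the restriction of a function to `B` -/
def res (B : Finset Δ) (y : Δ → G) : Δ → G := fun i => if i ∈ B then y i else 1

theorem conj_base (a : Δ → G) (y : Δ → G) (h : K) :
    Wreath.base a * (⟨y, h⟩ : Wreath G Δ K) * (Wreath.base a)⁻¹ =
      ⟨fun i => a i * y i * (a (h⁻¹ • i))⁻¹, h⟩ := by
  apply Wreath.ext
  · funext i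
    rw [Wreath.conj_f, Wreath.base_s, Wreath.base_f, inv_one, one_smul, one_mul, mul_one]
  · rw [Wreath.conj_s, Wreath.base_s, one_mul, inv_one, mul_one]

theorem res_class {h : K} {B : Finset Δ} (hB : IsBase h B) {Φ : Wreath G Δ K → ℂ}
    (hΦ : ∀ x y, Φ (y * x * y⁻¹) = Φ x) {y z : Δ → G} (hyz : ∀ i, IsConj (y i) (z i)) :
    Φ ⟨res B y, h⟩ = Φ ⟨res B z, h⟩ := by
  classical
  choose c hc using fun i => isConj_iff.1 (hyz i)
  choose b hb hu using fun j => hB j
  have hb1 : ∀ j, b (h⁻¹ • j) = b j := by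
    intro j
    apply hu
    refine ⟨(hb _).1, ?_⟩
    have h1 := (hb (h⁻¹ • j)).2
    have h2 : h⁻¹ • j ∈ MulAction.orbit (Subgroup.zpowers h) j :=
      ⟨⟨h⁻¹, (Subgroup.zpowers h).inv_mem (Subgroup.mem_zpowers h)⟩, rfl⟩
    rwa [MulAction.orbit_eq_iff.2 h2] at h1
  have hb2 : ∀ i ∈ B, b i = i := fun i hi =>
    (hu i i ⟨hi, MulAction.mem_orbit_self i⟩).symm
  have h1 := hΦ ⟨res B y, h⟩ (Wreath.base (fun i => c (b i)))
  rw [conj_base] at h1
  rw [← h1]
  congr 2
  funext i
  unfold res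
  by_cases hi : i ∈ B
  · rw [if_pos hi, if_pos hi, hb1, hb2 i hi, hc]
  · rw [if_neg hi, if_neg hi, hb1, mul_one, mul_inv_cancel]

/-- the sum over the coset of `h` -/
def Sh (Φ X : Wreath G Δ K → ℂ) (h : K) : ℂ := ∑ᶠ w : Δ → G, Φ ⟨w, h⟩ * X ⟨w, h⟩

open Classical in
/-- local factors -/
def omB (B : Finset Δ) (α : Δ → G → ℂ) (i : Δ) (C : ConjClasses G) : ℂ :=
  if i ∈ B then omega (MonoidHom.id G) (α i) (Quotient.out C) else
    if C = ConjClasses.mk 1 then 1 else 0

open Classical in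
theorem Sh_eq [Finite G] [Fintype Δ] [Fintype (ConjClasses G)]
    {v : Finset (Δ → Subgroup G)} {α : Δ → G → ℂ} {X : Wreath G Δ K → ℂ} (hα : IsChars v α)
    (hX : IsExt K v α X) {h : K} (hh : h ∈ topSt K v α) {B : Finset Δ} (hB : IsBase h B)
    {Φ : Wreath G Δ K → ℂ} (hΦ : ∀ x y, Φ (y * x * y⁻¹) = Φ x) :
    Sh Φ X h / ∏ j, α j 1 =
      (∏ j, if j ∈ B then (1 : ℂ) else (Nat.card (colStab v j) : ℂ) / α j 1) *
        ∑ C : Δ → ConjClasses G, Φ ⟨res B (fun i => Quotient.out (C i)), h⟩ *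
          ∏ i, omB B α i (C i) := by
  have := Fintype.ofFinite G
  have hone : ∀ j, α j 1 ≠ 0 := fun j => IrrS_one_ne (hα j)
  have h1 := hX.form h hh B hB Φ (fun x a => hΦ x _)
  have h2 : (∑ᶠ (y : Δ → G) (_ : ∀ j, j ∉ B → y j = 1), Φ ⟨y, h⟩ * ∏ b ∈ B, α b (y b)) =
      ∑ y : Δ → G, Φ ⟨res B y, h⟩ *
        ∏ i, (if i ∈ B then α i (y i) else if y i = 1 then 1 else 0) := by
    rw [finsum_eq_sum_of_fintype]
    refine Finset.sum_congr rfl fun y _ => ?_
    rw [finsum_eq_if]
    split_ifs with hy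
    · have h3 : res B y = y := by
        funext i
        unfold res
        split_ifs with hi
        · rfl
        · exact (hy i hi).symm
      rw [h3]
      congr 1
      rw [← Finset.prod_subset (Finset.subset_univ B)]
      · exact Finset.prod_congr rfl fun i hi => by rw [if_pos hi]
      · intro i _ hi
        rw [if_neg hi, if_pos (hy i hi)]
    · push Not at hy
      obtain ⟨j, hj, hj2⟩ := hy
      rw [Finset.prod_eq_zero (Finset.mem_univ j), mul_zero]
      rw [if_neg hj, if_neg hj2]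
  have h3 := sum_class_pi (fun y : Δ → G => Φ ⟨res B y, h⟩)
    (fun i x => if i ∈ B then α i x else if x = 1 then 1 else 0)
    (fun y z hyz => res_class hB hΦ hyz)
  have h4 : ∀ (i : Δ) (C : ConjClasses G),
      ∑ x ∈ Finset.univ.filter (fun x => ConjClasses.mk x = C),
        (if i ∈ B then α i x else if x = 1 then 1 else 0) =
      omB B α i C * (if i ∈ B then α i 1 else 1) := by
    intro i C
    unfold omB
    by_cases hi : i ∈ B
    · simp only [if_pos hi]
      exact class_omega (α i) (hone i) C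
    · simp only [if_neg hi, mul_one]
      rw [Finset.sum_ite_eq']
      simp only [Finset.mem_filter, Finset.mem_univ, true_and]
      by_cases hC : C = ConjClasses.mk 1
      · rw [if_pos hC.symm, if_pos hC]
      · rw [if_neg (fun h => hC h.symm), if_neg hC]
  unfold Sh
  rw [h1, h2, h3]
  simp only [h4, Finset.prod_mul_distrib]
  have h5 : ∏ j, α j 1 = (∏ j, if j ∈ B then α j 1 else 1) *
      ∏ j, if j ∈ B then 1 else α j 1 := by
    rw [← Finset.prod_mul_distrib]
    refine Finset.prod_congr rfl fun j _ => ?_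
    split_ifs <;> simp
  have h6 : (∏ j, if j ∈ B then (1 : ℂ) else (Nat.card (colStab v j) : ℂ) / α j 1) =
      (∏ j, if j ∈ B then (1 : ℂ) else (Nat.card (colStab v j) : ℂ)) /
        ∏ j, if j ∈ B then 1 else α j 1 := by
    rw [← Finset.prod_div_distrib]
    refine Finset.prod_congr rfl fun j _ => ?_
    split_ifs <;> simp
  have h7 : (∏ j, if j ∈ B then α j 1 else 1) ≠ 0 := by
    refine Finset.prod_ne_zero_iff.2 fun j _ => ?_
    split_ifs
    · exact hone j
    · exact one_ne_zero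
  have h8 : (∏ j, if j ∈ B then (1 : ℂ) else α j 1) ≠ 0 := by
    refine Finset.prod_ne_zero_iff.2 fun j _ => ?_
    split_ifs
    · exact one_ne_zero
    · exact hone j
  have h9 : ∑ C : Δ → ConjClasses G, Φ ⟨res B (fun i => Quotient.out (C i)), h⟩ *
      ((∏ i, omB B α i (C i)) * ∏ j, if j ∈ B then α j 1 else 1) =
      (∑ C : Δ → ConjClasses G, Φ ⟨res B (fun i => Quotient.out (C i)), h⟩ *
        ∏ i, omB B α i (C i)) * ∏ j, if j ∈ B then α j 1 else 1 := by
    rw [Finset.sum_mul]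
    exact Finset.sum_congr rfl fun C _ => by ring
  rw [h9, h5, h6]
  field_simp

theorem omB_integral [Finite G] {v : Finset (Δ → Subgroup G)} {α : Δ → G → ℂ}
    (hα : IsChars v α) (B : Finset Δ) (i : Δ) (C : ConjClasses G) : AI (omB B α i C) := by
  classical
  unfold omB
  split_ifs
  · exact omega_IrrS_integral (hα i) _
  · exact isIntegral_one
  · exact isIntegral_zero

theorem Sh_cong [Finite G] [Fintype Δ] {M : Ideal (integralClosure ℤ ℂ)}
    {v v' : Finset (Δ → Subgroup G)} {α α' : Δ → G → ℂ} {X X' : Wreath G Δ K → ℂ}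
    (hα : IsChars v α) (hα' : IsChars v' α') (hX : IsExt K v α X) (hX' : IsExt K v' α' X')
    {h : K} (hh : h ∈ topSt K v α) (hh' : h ∈ topSt K v' α')
    (hdat : ∀ j, dat M v α j = dat M v' α' j)
    {Φ : Wreath G Δ K → ℂ} (hΦ : ∀ x y, Φ (y * x * y⁻¹) = Φ x) (hI : ∀ x, IsIntegral ℤ (Φ x)) :
    Cong M (Sh Φ X h / ∏ j, α j 1) (Sh Φ X' h / ∏ j, α' j 1) := by
  classical
  have := Fintype.ofFinite (ConjClasses G)
  obtain ⟨B, hB⟩ := exists_base (Δ := Δ) h
  rw [Sh_eq hα hX hh hB hΦ, Sh_eq hα' hX' hh' hB hΦ]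
  have hq : ∀ (w : Finset (Δ → Subgroup G)) (β : Δ → G → ℂ), IsChars w β → ∀ j,
      AI (if j ∈ B then (1 : ℂ) else (Nat.card (colStab w j) : ℂ) / β j 1) := by
    intro w β hβ j
    split_ifs
    · exact isIntegral_one
    · exact card_div_integral (hβ j)
  have hs : ∀ (w : Finset (Δ → Subgroup G)) (β : Δ → G → ℂ), IsChars w β →
      AI (∑ C : Δ → ConjClasses G, Φ ⟨res B (fun i => Quotient.out (C i)), h⟩ *
          ∏ i, omB B β i (C i)) := by
    intro w β hβ
    refine IsIntegral.sum _ fun C _ => (hI _).mul ?_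
    exact IsIntegral.prod _ fun i _ => omB_integral hβ B i _
  refine Cong.mul ?_ ?_ (IsIntegral.prod _ fun j _ => hq v' α' hα' j) (hs v α hα)
  · refine Cong.prod' _ _ _ (fun j _ => ?_) (fun j _ => hq v α hα j)
      (fun j _ => hq v' α' hα' j)
    split_ifs
    · exact Cong.refl _
    · have h1 := congrArg Prod.snd (hdat j)
      exact (red_eq_iff (card_div_integral (hα j)) (card_div_integral (hα' j))).1 h1
  · apply Cong.sum
    intro C _
    refine Cong.mul_left ?_ (hI _)
    refine Cong.prod' _ _ _ (fun i _ => ?_) (fun i _ => omB_integral hα B i _)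
      (fun i _ => omB_integral hα' B i _)
    unfold omB
    split_ifs
    · have h1 := congrFun (congrArg Prod.fst (hdat i)) (Quotient.out (C i))
      exact (red_eq_iff (omega_IrrS_integral (hα i) _) (omega_IrrS_integral (hα' i) _)).1 h1
    · exact Cong.refl _
    · exact Cong.refl _

theorem IrrS_class {Γ : Type} [Group Γ] {H : Subgroup Γ} {a : Γ → ℂ} (ha : a ∈ IrrS H)
    {t : Γ} (ht : t ∈ H) (x : Γ) : a (t * x * t⁻¹) = a x := by
  by_cases hx : x ∈ H
  · exact irr_conj ha.2 (⟨x, hx⟩ : H) ⟨t, ht⟩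
  · rw [ha.1 x hx, ha.1]
    intro h
    apply hx
    have := H.mul_mem (H.mul_mem (H.inv_mem ht) h) ht
    have e : t⁻¹ * (t * x * t⁻¹) * t = x := by group
    rwa [e] at this

/-- the coset sums are invariant -/
theorem Sh_conj {v : Finset (Δ → Subgroup G)} {α : Δ → G → ℂ} {X : Wreath G Δ K → ℂ}
    (hX : X ∈ IrrS (stX K v α)) {u : K} (hu : u ∈ topSt K v α) {Φ : Wreath G Δ K → ℂ}
    (hΦ : ∀ x y, Φ (y * x * y⁻¹) = Φ x) (h : K) : Sh Φ X (u * h * u⁻¹) = Sh Φ X h := by
  obtain ⟨t, ht, rfl⟩ := hu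
  unfold Sh
  let e : (Δ → G) ≃ (Δ → G) :=
    { toFun := fun w => (t * (⟨w, h⟩ : Wreath G Δ K) * t⁻¹).f
      invFun := fun w => (t⁻¹ * (⟨w, t.s * h * t.s⁻¹⟩ : Wreath G Δ K) * t).f
      left_inv := fun w => by
        have h1 : (⟨(t * (⟨w, h⟩ : Wreath G Δ K) * t⁻¹).f, t.s * h * t.s⁻¹⟩ : Wreath G Δ K) =
            t * (⟨w, h⟩ : Wreath G Δ K) * t⁻¹ := Wreath.ext rfl rfl
        show (t⁻¹ * (⟨(t * (⟨w, h⟩ : Wreath G Δ K) * t⁻¹).f, t.s * h * t.s⁻¹⟩ :
          Wreath G Δ K) * t).f = w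
        rw [h1]
        have h2 : t⁻¹ * (t * (⟨w, h⟩ : Wreath G Δ K) * t⁻¹) * t = ⟨w, h⟩ := by group
        rw [h2]
      right_inv := fun w => by
        have h1 : (⟨(t⁻¹ * (⟨w, t.s * h * t.s⁻¹⟩ : Wreath G Δ K) * t).f, h⟩ : Wreath G Δ K) =
            t⁻¹ * (⟨w, t.s * h * t.s⁻¹⟩ : Wreath G Δ K) * t := by
          refine Wreath.ext rfl ?_
          show h = t.s⁻¹ * (t.s * h * t.s⁻¹) * t.s
          group
        show (t * (⟨(t⁻¹ * (⟨w, t.s * h * t.s⁻¹⟩ : Wreath G Δ K) * t).f, h⟩ :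
          Wreath G Δ K) * t⁻¹).f = w
        rw [h1]
        have h2 : t * (t⁻¹ * (⟨w, t.s * h * t.s⁻¹⟩ : Wreath G Δ K) * t) * t⁻¹ =
            ⟨w, t.s * h * t.s⁻¹⟩ := by group
        rw [h2] }
  have h3 : ∀ w : Δ → G, (⟨e w, t.s * h * t.s⁻¹⟩ : Wreath G Δ K) =
      t * (⟨w, h⟩ : Wreath G Δ K) * t⁻¹ := fun w => Wreath.ext rfl rfl
  rw [← finsum_comp_equiv e]
  refine finsum_congr fun w => ?_
  show Φ ⟨e w, t.s * h * t.s⁻¹⟩ * X ⟨e w, t.s * h * t.s⁻¹⟩ = _
  rw [h3, hΦ, IrrS_class hX ht]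

theorem val_eta [Finite G] [Fintype Δ] [Fintype K] {v : Finset (Δ → Subgroup G)}
    {α : Δ → G → ℂ} (hX : IsExt K v α (ext K v α)) (Φ : Wreath G Δ K → ℂ) (lam : K → ℂ) :
    val Φ (eta v α lam) =
      (∑ h, lam h * (Sh Φ (ext K v α) h / ∏ j, α j 1)) / lam 1 := by
  classical
  have := Fintype.ofFinite G
  have := Fintype.ofFinite (Wreath G Δ K)
  rw [val_eq]
  have h1 : eta v α lam (1 : Wreath G Δ K) = (∏ j, α j 1) * lam 1 := by
    unfold eta
    have := hX.base 1
    rw [map_one] at this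
    rw [this]
    rfl
  rw [h1]
  have h2 : ∑ t : Wreath G Δ K, Φ t * eta v α lam t =
      ∑ h : K, lam h * Sh Φ (ext K v α) h := by
    rw [← Equiv.sum_comp (Wreath.equivProd G Δ K).symm, Fintype.sum_prod_type_right]
    refine Finset.sum_congr rfl fun h _ => ?_
    unfold Sh
    rw [finsum_eq_sum_of_fintype, Finset.mul_sum]
    refine Finset.sum_congr rfl fun w _ => ?_
    show Φ ⟨w, h⟩ * (ext K v α ⟨w, h⟩ * lam h) = _
    ring
  rw [h2, ← div_div, Finset.sum_div]
  congr 1
  refine Finset.sum_congr rfl fun h _ => ?_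
  rw [mul_div_assoc]

theorem formStmt (hext : ExtStmt) : FormStmt := by
  classical
  intro G Δ K _ _ _ _ _ _ M v v' α α' U lam Φ hα hα' hU hU' hlam hdat hΦ hI
  have hE : ∀ (w : Finset (Δ → Subgroup G)) β, IsChars w β → IsExt K w β (ext K w β) := by
    intro w β hβ
    have h := hext G Δ K w β hβ
    unfold ext
    rw [dif_pos h]
    exact h.choose_spec
  have := Fintype.ofFinite K
  have := Fintype.ofFinite U
  have hX := hE v α hα
  have hX' := hE v' α' hα'
  rw [val_eta hX, val_eta hX', cong_iff_sub, ← sub_div, ← Finset.sum_sub_distrib]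
  set D : K → ℂ := fun h => Sh Φ (ext K v α) h / (∏ j, α j 1) -
    Sh Φ (ext K v' α') h / ∏ j, α' j 1 with hD
  have h1 : ∑ h : K, (lam h * (Sh Φ (ext K v α) h / ∏ j, α j 1) -
      lam h * (Sh Φ (ext K v' α') h / ∏ j, α' j 1)) = ∑ h : U, lam h * D h := by
    have h2 : ∀ h : K, (lam h * (Sh Φ (ext K v α) h / ∏ j, α j 1) -
        lam h * (Sh Φ (ext K v' α') h / ∏ j, α' j 1)) = if h ∈ U then lam h * D h else 0 := by
      intro h
      split_ifs with hh
      · rw [hD]; ring
      · rw [hlam.1 h hh]; ring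
    simp_rw [h2]
    rw [← Finset.sum_filter]
    symm
    refine Finset.sum_bij (fun (x : U) _ => (x : K)) ?_ ?_ ?_ ?_
    · intro x _; simp
    · intro x _ y _ hxy; exact Subtype.ext hxy
    · intro x hx
      exact ⟨⟨x, (Finset.mem_filter.1 hx).2⟩, Finset.mem_univ _, rfl⟩
    · intro x _; rfl
  rw [h1]
  refine cong_class hlam.2 (fun h : U => D h) (fun x y => ?_) (fun x => ?_)
  · show D ((y : K) * x * (y : K)⁻¹) = D x
    rw [hD]
    simp only
    rw [Sh_conj hX.mem (hU y.2) hΦ, Sh_conj hX'.mem (hU' y.2) hΦ]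
  · have := Sh_cong hα hα' hX hX' (hU x.2) (hU' x.2) hdat hΦ hI
    exact cong_iff_sub.1 this

end Pool.Agent.Helper79_WRA.H13
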