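import Pool.Agent.Helper13_WRA.Form

/-!
WRA, module LABEL: induced blocks are defined for stabilisers of chains of `ℓ`-subgroups.
-/

open scoped BigOperators

noncomputable section

namespace Pool.Agent.Helper79_WRA.H13

open Pool.Agent.Helper51_AWC Pool.Agent.Helper79_WRA

theorem val_class {H : Type} [Group H] [Fintype H] [DecidableEq (ConjClasses H)]
    [Fintype (ConjClasses H)] (F a : H → ℂ) (hF : ∀ x y, F (y * x * y⁻¹) = F x) (h1 : a 1 ≠ 0) :
    val F a = ∑ C : ConjClasses H, F (Quotient.out C) *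
      omega (MonoidHom.id H) a (Quotient.out C) := by
  rw [val_eq, sum_class1 F a hF, Finset.sum_div]
  refine Finset.sum_congr rfl fun C _ => ?_
  rw [class_omega a h1, ← mul_assoc, mul_div_assoc, div_self h1, mul_one]

theorem val_integral {H : Type} [Group H] [Finite H] {F a : H → ℂ}
    (hF : ∀ x y, F (y * x * y⁻¹) = F x) (hI : ∀ x, IsIntegral ℤ (F x)) (ha : a ∈ Irr H) :
    IsIntegral ℤ (val F a) := by
  classical
  have := Fintype.ofFinite H
  have := Fintype.ofFinite (ConjClasses H)
  rw [val_class F a hF (irr_one_ne ha)]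
  exact IsIntegral.sum _ fun C _ => (hI _).mul (omega_integral _ ha _)

/-- congruence of values for functions with congruent central characters -/
theorem val_cong {H : Type} [Group H] [Finite H] {M : Ideal (integralClosure ℤ ℂ)}
    {F a b : H → ℂ} (hF : ∀ x y, F (y * x * y⁻¹) = F x) (hI : ∀ x, IsIntegral ℤ (F x))
    (ha : a 1 ≠ 0) (hb : b 1 ≠ 0)
    (h : ∀ g, Cong M (omega (MonoidHom.id H) a g) (omega (MonoidHom.id H) b g)) :
    Cong M (val F a) (val F b) := by
  classical
  have := Fintype.ofFinite H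
  have := Fintype.ofFinite (ConjClasses H)
  rw [val_class F a hF ha, val_class F b hF hb]
  apply Cong.sum
  intro C _
  exact (h _).mul_left (hI _)

theorem val_restrict' {Γ : Type} [Group Γ] [Finite Γ] {Λ : Subgroup Γ} (Φ η : Γ → ℂ)
    (hη : ∀ t, t ∉ Λ → η t = 0) :
    val (fun t : Λ => Φ t) (fun t : Λ => η t) = val Φ η := by
  classical
  unfold val
  congr 1
  have h1 : ∑ᶠ t : Λ, (fun t : Λ => Φ t) t * (fun t : Λ => η t) t =
      ∑ᶠ (t : Γ) (_ : t ∈ Λ), Φ t * η t :=
    finsum_subtype_eq_finsum_cond (f := fun t => Φ t * η t) (p := fun t => t ∈ Λ)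
  rw [h1]
  refine finsum_congr fun t => ?_
  rw [finsum_eq_if]
  split_ifs with h
  · rfl
  · rw [hη t h, mul_zero]

open Classical in
/-- the indicator of the class of `g` on `H` -/
theorem omega_eq_val {G : Type} [Group G] [Finite G] (H : Subgroup G) (a : H → ℂ) (g : G) :
    omega H.subtype a g = val (fun h : H => if IsConj g (h : G) then (1 : ℂ) else 0) a := by
  have := Fintype.ofFinite H
  rw [omega_eq, val_eq]
  congr 1
  refine Finset.sum_congr rfl fun h _ => ?_
  by_cases hg : IsConj g (h : G)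
  · have hg' : IsConj g (H.subtype h) := hg
    rw [if_pos hg, if_pos hg', one_mul]
  · have hg' : ¬ IsConj g (H.subtype h) := hg
    rw [if_neg hg, if_neg hg', zero_mul]

open Classical in
theorem omega_eq_val' {G : Type} [Group G] [Finite G] (a : G → ℂ) (g : G) :
    omega (MonoidHom.id G) a g = val (fun h : G => if IsConj g h then (1 : ℂ) else 0) a := by
  have := Fintype.ofFinite G
  rw [omega_eq, val_eq]
  congr 1
  refine Finset.sum_congr rfl fun h _ => ?_
  simp only [MonoidHom.id_apply, ite_mul, one_mul, zero_mul]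

theorem conj_indicator {G : Type} [Group G] (g x y : G) [Decidable (IsConj g (y * x * y⁻¹))]
    [Decidable (IsConj g x)] : (if IsConj g (y * x * y⁻¹) then (1 : ℂ) else 0) =
      if IsConj g x then 1 else 0 := by
  have h : IsConj x (y * x * y⁻¹) := isConj_iff.2 ⟨y, rfl⟩
  by_cases h1 : IsConj g x
  · rw [if_pos h1, if_pos (h1.trans h)]
  · rw [if_neg h1, if_neg (fun h2 => h1 (h2.trans h.symm))]

theorem exists_max {G : Type} [Group G] [Finite G] {d : Finset (Subgroup G)} (hne : d.Nonempty)
    (hd : IsChain (· ≤ ·) (d : Set (Subgroup G))) : ∃ D ∈ d, ∀ E ∈ d, E ≤ D := by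
  obtain ⟨D, hD, hmax⟩ := Finset.exists_max_image d (fun E => Nat.card E) hne
  refine ⟨D, hD, fun E hE => ?_⟩
  rcases chain_total hd hE hD with h | h
  · exact h
  · rw [Subgroup.eq_of_le_of_card_ge h (hmax E hE)]

/-- the functional of a character of a subgroup -/
def Wf {G : Type} [Group G] [Finite G] (H : Subgroup G) (ϑ : H → ℂ) : (G → ℂ) →ₗ[ℂ] ℂ where
  toFun f := val (fun h : H => f h) ϑ
  map_add' f g := by
    have := Fintype.ofFinite H
    rw [val_eq, val_eq, val_eq, ← add_div, ← Finset.sum_add_distrib]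
    congr 1
    exact Finset.sum_congr rfl fun t _ => by rw [Pi.add_apply]; ring
  map_smul' c f := by
    have := Fintype.ofFinite H
    rw [val_eq, val_eq, RingHom.id_apply, smul_eq_mul, ← mul_div_assoc, Finset.mul_sum]
    congr 1
    exact Finset.sum_congr rfl fun t _ => by rw [Pi.smul_apply, smul_eq_mul]; ring

theorem Wf_integral {G : Type} [Group G] [Finite G] {H : Subgroup G} {ϑ : H → ℂ}
    (hϑ : ϑ ∈ Irr H) (f : G → ℂ) (hf : ∀ x y, f (y * x * y⁻¹) = f x)
    (hfi : ∀ x, IsIntegral ℤ (f x)) : IsIntegral ℤ (Wf H ϑ f) :=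
  val_integral (F := fun h : H => f h) (fun _ _ => hf _ _) (fun _ => hfi _) hϑ

theorem Wf_one {G : Type} [Group G] [Finite G] {M : Ideal (integralClosure ℤ ℂ)}
    {H : Subgroup G} {ϑ : H → ℂ} (hϑ : ϑ ∈ Irr H) (f : G → ℂ) (hf : ∀ x, x ≠ 1 → f x = 0)
    (hf1 : f 1 = 1) : Cong M (Wf H ϑ f) 1 := by
  have := Fintype.ofFinite H
  show Cong M (val (fun h : H => f h) ϑ) 1
  rw [val_eq, Finset.sum_eq_single_of_mem 1 (Finset.mem_univ _)]
  · rw [OneMemClass.coe_one, hf1, one_mul, div_self (irr_one_ne hϑ)]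
    exact Cong.refl _
  · intro x _ hx
    rw [hf _ (fun h => hx (Subtype.ext h)), zero_mul]

theorem chain_image {G : Type} [Group G] [DecidableEq (Subgroup G)] {d : Finset (Subgroup G)}
    (hc : IsChain (· ≤ ·) (d : Set (Subgroup G))) (D H : Subgroup G)
    [DecidableEq (Subgroup H)] :
    IsChain (· ≤ ·) (((d.erase D).image fun E => E.subgroupOf H : Finset (Subgroup H)) :
      Set (Subgroup H)) := by
  intro E hE E' hE' _
  rw [Finset.mem_coe] at hE hE'
  obtain ⟨F, hF, rfl⟩ := Finset.mem_image.1 hE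
  obtain ⟨F', hF', rfl⟩ := Finset.mem_image.1 hE'
  rcases chain_total hc (Finset.mem_erase.1 hF).2 (Finset.mem_erase.1 hF').2 with h | h
  · left
    show F.subgroupOf H ≤ F'.subgroupOf H
    intro x hx
    exact Subgroup.mem_subgroupOf.2 (h (Subgroup.mem_subgroupOf.1 hx))
  · right
    show F'.subgroupOf H ≤ F.subgroupOf H
    intro x hx
    exact Subgroup.mem_subgroupOf.2 (h (Subgroup.mem_subgroupOf.1 hx))

theorem mem_stab_subgroupOf {G : Type} [Group G] [DecidableEq (Subgroup G)]
    {d : Finset (Subgroup G)} {H : Subgroup G} [DecidableEq (Subgroup H)] {D : Subgroup G}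
    (hH : H = Subgroup.normalizer (D : Set G)) (hle : ∀ E ∈ d, E ≤ H) :
    stab ((d.erase D).image fun E => E.subgroupOf H) = (stab d).subgroupOf H := by
  ext g
  rw [mem_stab, Subgroup.mem_subgroupOf, mem_stab]
  have key : ∀ E ∈ d, conjS g (E.subgroupOf H) = E.subgroupOf H ↔ conjS (g : G) E = E := by
    intro E hE
    constructor
    · intro h
      ext x
      rw [mem_conjS]
      by_cases hx : x ∈ H
      · have h1 := congrArg (fun S : Subgroup H => (⟨x, hx⟩ : H) ∈ S) h
        simp only [mem_conjS, Subgroup.mem_subgroupOf, eq_iff_iff] at h1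
        exact h1
      · constructor
        · intro h1
          exfalso
          apply hx
          have h2 := H.mul_mem (H.mul_mem g.2 (hle E hE h1)) (H.inv_mem g.2)
          have e : (g : G) * ((g : G)⁻¹ * x * g) * (g : G)⁻¹ = x := by group
          rwa [e] at h2
        · intro h1
          exact absurd (hle E hE h1) hx
    · intro h
      ext x
      rw [mem_conjS, Subgroup.mem_subgroupOf, Subgroup.mem_subgroupOf]
      conv_rhs => rw [← h, mem_conjS]
      rfl
  constructor
  · intro h E hE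
    by_cases hED : E = D
    · have h1 : (g : G) ∈ Subgroup.normalizer (D : Set G) := hH.le g.2
      rw [hED]
      exact mem_normalizer_iff_conjS.1 h1
    · exact (key E hE).1 (h _ (Finset.mem_image_of_mem _ (Finset.mem_erase.2 ⟨hED, hE⟩)))
  · intro h E hE
    obtain ⟨E', hE', rfl⟩ := Finset.mem_image.1 hE
    have h1 := (Finset.mem_erase.1 hE').2
    exact (key E' h1).2 (h E' h1)

theorem exists_small_chain {G : Type} [Group G] [Finite G] {ℓ : ℕ} {d : Finset (Subgroup G)}
    (hp : ∀ D ∈ d, IsPGroup ℓ D) (hc : IsChain (· ≤ ·) (d : Set (Subgroup G))) {D : Subgroup G}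
    (hD : D ∈ d) (H : Subgroup G) (hH : H = Subgroup.normalizer (D : Set G))
    (hle : ∀ E ∈ d, E ≤ H) :
    ∃ d' : Finset (Subgroup H), d'.card < d.card ∧ (∀ E ∈ d', IsPGroup ℓ E) ∧
      IsChain (· ≤ ·) (d' : Set (Subgroup H)) ∧ stab d' = (stab d).subgroupOf H := by
  classical
  have h10 := chain_image hc D H
  have h11 := mem_stab_subgroupOf (d := d) (D := D) (H := H) hH hle
  have h12 : ((d.erase D).image fun E => E.subgroupOf H).card < d.card := by
    have h1 := Finset.card_image_le (s := d.erase D) (f := fun E => E.subgroupOf H)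
    have h2 := Finset.card_erase_of_mem hD
    have h3 : 0 < d.card := Finset.card_pos.2 ⟨D, hD⟩
    omega
  have h13 : ∀ E ∈ ((d.erase D).image fun E => E.subgroupOf H : Finset (Subgroup H)),
      IsPGroup ℓ E := by
    intro E hE
    obtain ⟨E', hE', rfl⟩ := Finset.mem_image.1 hE
    have h1 := hp E' (Finset.mem_erase.1 hE').2
    exact h1.comap_of_injective H.subtype H.subtype_injective
  exact ⟨_, h12, h13, h10, h11⟩

theorem label_step {G : Type} [Group G] [Finite G] {ℓ : ℕ} [Fact ℓ.Prime]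
    {M : Ideal (integralClosure ℤ ℂ)} [M.IsMaximal] (hℓ : (ℓ : integralClosure ℤ ℂ) ∈ M)
    (hbr : BrStmt) (halg : AlgStmt) {D H T : Subgroup G} (hD : IsPGroup ℓ D)
    (hH : H = Subgroup.normalizer (D : Set G)) (hTH : T ≤ H) {a : G → ℂ} (ha : a ∈ IrrS T)
    {T' : Subgroup H} (ha' : (fun t : H => a t) ∈ IrrS T') {ϑ : H → ℂ} (hϑ : ϑ ∈ Irr H)
    (hlab : labF M (fun t : H => a t) = labF M ϑ) : ∃ χ ∈ Irr G, labF M a = labF M χ := by
  classical
  obtain ⟨χ, hχ, hW⟩ := halg M G (Wf H ϑ) (Wf_integral hϑ)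
    (fun f f' hf hfi hf' hfi' => hbr ℓ M hℓ G H D hD
      (by rw [hH]; exact Subgroup.le_normalizer) hH.le
      (by rw [hH]; exact Subgroup.centralizer_le_normalizer _) ϑ hϑ f f' hf hfi hf' hfi')
    (Wf_one hϑ)
  refine ⟨χ, hχ, ?_⟩
  funext g
  unfold labF
  rw [red_eq_iff (omega_IrrS_integral ha g) (omega_integral _ hχ g)]
  have hcl : ∀ x y : G, (if IsConj g (y * x * y⁻¹) then (1 : ℂ) else 0) =
      if IsConj g x then 1 else 0 := fun x y => conj_indicator g x y
  have hint : ∀ x : G, IsIntegral ℤ (if IsConj g x then (1 : ℂ) else 0) := by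
    intro x
    split_ifs
    · exact isIntegral_one
    · exact isIntegral_zero
  have h1 := hW (fun x => if IsConj g x then (1 : ℂ) else 0) hcl hint
  have h2 : omega (MonoidHom.id G) a g =
      val (fun h : H => if IsConj g (h : G) then (1 : ℂ) else 0) (fun h : H => a h) := by
    rw [omega_eq_val']
    exact (val_restrict' (fun x => if IsConj g x then (1 : ℂ) else 0) a
      (fun t ht => ha.1 t fun h => ht (hTH h))).symm
  rw [h2, omega_eq_val']
  refine Cong.trans ?_ h1
  show Cong M _ (val (fun h : H => if IsConj g (h : G) then (1 : ℂ) else 0) ϑ)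
  have ha1 : (fun t : H => a t) 1 ≠ 0 := by
    have := IrrS_one_ne ha'
    exact this
  refine val_cong (fun x y => hcl _ _) (fun x => hint _) ha1 (irr_one_ne hϑ) ?_
  intro x
  have h3 := congrFun hlab x
  exact (red_eq_iff (omega_IrrS_integral ha' x) (omega_integral _ hϑ x)).1 h3

theorem label_base {G : Type} [Group G] {M : Ideal (integralClosure ℤ ℂ)}
    {a : G → ℂ} (ha : a ∈ IrrS (stab (∅ : Finset (Subgroup G)))) :
    ∃ χ ∈ Irr G, labF M a = labF M χ := by
  have h1 : stab (∅ : Finset (Subgroup G)) = ⊤ := by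
    rw [eq_top_iff]
    intro x _
    rw [mem_stab]
    intro D hD
    exact absurd hD (Finset.notMem_empty _)
  rw [h1] at ha
  exact ⟨a, mem_IrrS_top.1 ha, rfl⟩

theorem label (hbr : BrStmt) (halg : AlgStmt) : LabelStmt := by
  intro ℓ _ M _ hℓ
  suffices h : ∀ (n : ℕ) (G : Type) [Group G] [Finite G] (d : Finset (Subgroup G)),
      d.card ≤ n → (∀ D ∈ d, IsPGroup ℓ D) → IsChain (· ≤ ·) (d : Set (Subgroup G)) →
      ∀ a ∈ IrrS (stab d), ∃ χ ∈ Irr G, labF M a = labF M χ from
    fun G _ _ d hp hc a ha => h d.card G d le_rfl hp hc a ha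
  intro n
  induction n with
  | zero =>
    intro G _ _ d hn hp hc a ha
    have : d = ∅ := Finset.card_eq_zero.1 (by omega)
    subst this
    exact label_base ha
  | succ n ih =>
    intro G _ _ d hn hp hc a ha
    rcases d.eq_empty_or_nonempty with h0 | hne
    · subst h0
      exact label_base ha
    · obtain ⟨D, hD, hmax⟩ := exists_max hne hc
      obtain ⟨H, hH⟩ : ∃ H : Subgroup G, H = Subgroup.normalizer (D : Set G) := ⟨_, rfl⟩
      have hDH : D ≤ H := by rw [hH]; exact Subgroup.le_normalizer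
      have hle : ∀ E ∈ d, E ≤ H := fun E hE => (hmax E hE).trans hDH
      have hstle : stab d ≤ H := by
        intro g hg
        rw [hH, mem_normalizer_iff_conjS]
        exact mem_stab.1 hg D hD
      obtain ⟨d', hd1, hd2, hd3, hd4⟩ := exists_small_chain hp hc hD H hH hle
      have ha' : (fun t : H => a t) ∈ IrrS (stab d') := by
        rw [hd4]
        refine ⟨fun t ht => ha.1 _ fun h => ht (Subgroup.mem_subgroupOf.2 h), ?_⟩
        exact irr_comp_equiv (Subgroup.subgroupOfEquivOfLe hstle) ha.2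
      obtain ⟨ϑ, hϑ, hlab⟩ := ih H d' (by omega) hd2 hd3 (fun t : H => a t) ha'
      exact label_step hℓ hbr halg (hp D hD) hH hstle ha ha' hϑ hlab

end Pool.Agent.Helper79_WRA.H13
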